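import Mathlib

set_option autoImplicit false

open Cardinal Submodule

namespace Pool.Agent.H14.GLCH

universe u

variable {F : Type u} [Field F] {V : Type u} [AddCommGroup V] [Module F V]

/-- The subspace `A` has codimension at least `κ`. -/
def CoLarge (κ : Cardinal.{u}) (A : Submodule F V) : Prop := κ ≤ Module.rank F (V ⧸ A)

theorem CoLarge.mono {κ : Cardinal.{u}} {A B : Submodule F V} (h : CoLarge κ B) (hAB : A ≤ B) :
    CoLarge κ A := by
  refine le_trans h ?_
  exact LinearMap.rank_le_of_surjective (Submodule.factor hAB) (Submodule.factor_surjective hAB)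

theorem CoLarge.sup_span {κ : Cardinal.{u}} (hκ : ℵ₀ ≤ κ) {A : Submodule F V} (h : CoLarge κ A)
    {s : Set V} (hs : #s < κ) : CoLarge κ (A ⊔ span F s) := by
  by_contra hcon
  unfold CoLarge at h hcon
  push Not at hcon
  have h1 : Module.rank F (V ⧸ A) = Module.rank F (V ⧸ (A ⊔ span F s)) +
      Module.rank F ((A ⊔ span F s).map A.mkQ) := by
    rw [← (Submodule.quotientQuotientEquivQuotient A (A ⊔ span F s) le_sup_left).rank_eq]
    exact (Submodule.rank_quotient_add_rank _).symm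
  have h2 : (A ⊔ span F s).map A.mkQ = span F (A.mkQ '' s) := by
    rw [Submodule.map_sup, Submodule.map_span]
    have : A.map A.mkQ = ⊥ := by
      rw [eq_bot_iff]
      rintro _ ⟨y, hy, rfl⟩
      simpa using hy
    rw [this, bot_sup_eq]
  have h3 : Module.rank F ((A ⊔ span F s).map A.mkQ) ≤ #s := by
    rw [h2]
    exact (rank_span_le _).trans mk_image_le
  have h4 : Module.rank F (V ⧸ A) < κ := by
    rw [h1]
    exact Cardinal.add_lt_of_lt hκ hcon (lt_of_le_of_lt h3 hs)
  exact absurd h (not_le.mpr h4)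

theorem CoLarge.sup_singleton {κ : Cardinal.{u}} (hκ : ℵ₀ ≤ κ) {A : Submodule F V}
    (h : CoLarge κ A) (x : V) : CoLarge κ (A ⊔ span F {x}) := by
  apply h.sup_span hκ
  rw [Cardinal.mk_singleton]
  exact lt_of_lt_of_le one_lt_aleph0 hκ

theorem CoLarge.exists_notMem {κ : Cardinal.{u}} (hκ : ℵ₀ ≤ κ) {A : Submodule F V}
    (h : CoLarge κ A) : ∃ v, v ∉ A := by
  by_contra hcon
  push Not at hcon
  have : A = ⊤ := by
    rw [eq_top_iff]; intro v _; exact hcon v
  subst this
  unfold CoLarge at h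
  have h0 : Module.rank F (V ⧸ (⊤ : Submodule F V)) = 0 := rank_subsingleton' F _
  rw [h0] at h
  exact absurd (hκ.trans h) (not_le.mpr aleph0_pos)

/-- two proper subspaces do not cover -/
theorem exists_notMem_two {A B : Submodule F V} (hA : ∃ v, v ∉ A) (hB : ∃ v, v ∉ B) :
    ∃ v, v ∉ A ∧ v ∉ B := by
  obtain ⟨x, hx⟩ := hA
  obtain ⟨y, hy⟩ := hB
  by_cases hxB : x ∈ B
  · by_cases hyA : y ∈ A
    · refine ⟨x + y, ?_, ?_⟩
      · intro h
        exact hx (by simpa using A.sub_mem h hyA)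
      · intro h
        exact hy (by simpa using B.sub_mem h hxB)
    · exact ⟨y, hyA, hy⟩
  · exact ⟨x, hx, hxB⟩

/-- exchange -/
theorem exchange {C : Submodule F V} {t x : V} (ht : t ∉ C) (hx : x ∉ C ⊔ span F {t}) :
    t ∉ C ⊔ span F {x} := by
  intro h
  rw [Submodule.mem_sup] at h
  obtain ⟨c, hc, y, hy, hcy⟩ := h
  rw [Submodule.mem_span_singleton] at hy
  obtain ⟨l, rfl⟩ := hy
  by_cases hl : l = 0
  · subst hl
    apply ht
    rw [← hcy]
    simpa using hc
  · apply hx
    rw [Submodule.mem_sup]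
    refine ⟨-(l⁻¹ • c), C.neg_mem (C.smul_mem _ hc), l⁻¹ • t, ?_, ?_⟩
    · exact Submodule.smul_mem _ _ (Submodule.mem_span_singleton_self t)
    · rw [← hcy, smul_add, smul_smul, inv_mul_cancel₀ hl, one_smul]
      abel

theorem mem_sup_singleton {C : Submodule F V} {t x : V} :
    x ∈ C ⊔ span F {t} ↔ ∃ c : F, x - c • t ∈ C := by
  rw [Submodule.mem_sup]
  constructor
  · rintro ⟨y, hy, z, hz, rfl⟩
    rw [Submodule.mem_span_singleton] at hz
    obtain ⟨l, rfl⟩ := hz
    exact ⟨l, by simpa using hy⟩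
  · rintro ⟨c, hc⟩
    exact ⟨x - c • t, hc, c • t, Submodule.smul_mem _ _ (Submodule.mem_span_singleton_self t),
      by abel⟩

/-- No scalar translate of `a` has its range in a subspace of codimension `κ`. -/
def NS (κ : Cardinal.{u}) (a : V ≃ₗ[F] V) : Prop :=
  ∀ c : F, ¬ CoLarge κ (LinearMap.range (a.toLinearMap - c • LinearMap.id))

theorem exists_generic {κ : Cardinal.{u}} (hκ : ℵ₀ ≤ κ) {C : Submodule F V} (hC : CoLarge κ C)
    {a : V ≃ₗ[F] V} (ha : NS κ a) : ∃ v, v ∉ C ∧ a v ∉ C ⊔ span F {v} := by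
  by_contra hcon
  push Not at hcon
  obtain ⟨v0, hv0⟩ := hC.exists_notMem hκ
  have key : ∀ p, p ∉ C → ∀ u ∈ C, a u ∈ C ⊔ span F {p} := by
    intro p hp u hu
    have hpu : p + u ∉ C := fun h => hp (by simpa using C.sub_mem h hu)
    have h1 := hcon (p + u) hpu
    have h2 := hcon p hp
    rw [mem_sup_singleton] at h1 h2 ⊢
    obtain ⟨c1, h1⟩ := h1
    obtain ⟨c2, h2⟩ := h2
    refine ⟨c1 - c2, ?_⟩
    have : a u - (c1 - c2) • p = (a (p + u) - c1 • (p + u)) - (a p - c2 • p) + c1 • u := by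
      rw [map_add, smul_add, sub_smul]; abel
    rw [this]
    exact C.add_mem (C.sub_mem h1 h2) (C.smul_mem _ hu)
  have inv : ∀ u ∈ C, a u ∈ C := by
    intro u hu
    obtain ⟨w, hw⟩ := (hC.sup_singleton hκ v0).exists_notMem hκ
    have hwC : w ∉ C := fun h => hw (Submodule.mem_sup_left h)
    have h1 := key v0 hv0 u hu
    have h2 := key w hwC u hu
    rw [mem_sup_singleton] at h1 h2
    obtain ⟨c1, h1⟩ := h1
    obtain ⟨c2, h2⟩ := h2
    by_cases hc2 : c2 = 0
    · subst hc2; simpa using h2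
    · exfalso
      apply hw
      rw [mem_sup_singleton]
      refine ⟨c2⁻¹ * c1, ?_⟩
      have h3 : c2⁻¹ • ((a u - c1 • v0) - (a u - c2 • w)) ∈ C := C.smul_mem _ (C.sub_mem h1 h2)
      have : c2⁻¹ • ((a u - c1 • v0) - (a u - c2 • w)) = w - (c2⁻¹ * c1) • v0 := by
        have e1 : (a u - c1 • v0) - (a u - c2 • w) = c2 • w - c1 • v0 := by abel
        rw [e1, smul_sub, smul_smul, smul_smul, inv_mul_cancel₀ hc2, one_smul]
      rwa [this] at h3
  have hv0' := hcon v0 hv0
  rw [mem_sup_singleton] at hv0'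
  obtain ⟨c, hc⟩ := hv0'
  apply ha c
  refine hC.mono ?_
  rintro _ ⟨w, rfl⟩
  simp only [LinearMap.sub_apply, LinearEquiv.coe_coe, LinearMap.smul_apply, LinearMap.id_apply]
  by_cases hw : w ∈ C ⊔ span F {v0}
  · rw [mem_sup_singleton] at hw
    obtain ⟨l, hl⟩ := hw
    have : a w - c • w = (a (w - l • v0) - c • (w - l • v0)) + l • (a v0 - c • v0) := by
      rw [map_sub, map_smul, smul_sub, smul_sub, smul_comm l c]; abel
    rw [this]
    exact C.add_mem (C.sub_mem (inv _ hl) (C.smul_mem _ hl)) (C.smul_mem _ hc)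
  · have hwC : w ∉ C := fun h => hw (Submodule.mem_sup_left h)
    have hvw : v0 + w ∉ C := by
      intro h
      apply hw
      rw [mem_sup_singleton]
      exact ⟨-1, by simpa [add_comm] using h⟩
    have h1 := hcon w hwC
    have h2 := hcon (v0 + w) hvw
    rw [mem_sup_singleton] at h1 h2
    obtain ⟨l, hl⟩ := h1
    obtain ⟨m, hm⟩ := h2
    -- (m - c) v0 + (m - l) w ∈ C
    have h3 : (m - c) • v0 + (m - l) • w ∈ C := by
      have : (m - c) • v0 + (m - l) • w =
          (a v0 - c • v0) + (a w - l • w) - (a (v0 + w) - m • (v0 + w)) := by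
        rw [map_add, smul_add, sub_smul, sub_smul]; abel
      rw [this]
      exact C.sub_mem (C.add_mem hc hl) hm
    have hml : m = l := by
      by_contra hne
      have hne' : m - l ≠ 0 := sub_ne_zero.mpr hne
      apply hw
      rw [mem_sup_singleton]
      refine ⟨-((m - l)⁻¹ * (m - c)), ?_⟩
      have h4 := C.smul_mem (m - l)⁻¹ h3
      have : (m - l)⁻¹ • ((m - c) • v0 + (m - l) • w) = w - (-((m - l)⁻¹ * (m - c))) • v0 := by
        rw [smul_add, smul_smul, smul_smul, inv_mul_cancel₀ hne', one_smul, neg_smul]; abel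
      rwa [this] at h4
    have hmc : m = c := by
      by_contra hne
      have hne' : m - c ≠ 0 := sub_ne_zero.mpr hne
      apply hv0
      have h4 := C.smul_mem (m - c)⁻¹ h3
      rw [hml, sub_self, zero_smul, add_zero, ← hml, smul_smul, inv_mul_cancel₀ hne',
        one_smul] at h4
      exact h4
    have : l = c := hml.symm.trans hmc
    rw [← this]
    exact hl

end Pool.Agent.H14.GLCH
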