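import Pool.Agent.H14.GLCH.Basic

set_option autoImplicit false

open Cardinal Submodule

namespace Pool.Agent.H14.GLCH

universe u

variable {F : Type u} [Field F] {V : Type u} [AddCommGroup V] [Module F V]

/-- projection for role `e` (true: argument, false: value) -/
def pr (e : Bool) : V × V →ₗ[F] V := if e then LinearMap.fst F V V else LinearMap.snd F V V

/-- pair with `x` in role `e` and `y` in the other role -/
def mkp (e : Bool) (x y : V) : V × V := if e then (x, y) else (y, x)

@[simp] theorem pr_mkp_self (e : Bool) (x y : V) : (pr e : V × V →ₗ[F] V) (mkp e x y) = x := by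
  cases e <;> simp [pr, mkp]

@[simp] theorem pr_mkp_not (e : Bool) (x y : V) : (pr (!e) : V × V →ₗ[F] V) (mkp e x y) = y := by
  cases e <;> simp [pr, mkp]

/-- `S` is the graph of an injective map -/
def Inj (S : Submodule F (V × V)) : Prop :=
  ∀ p ∈ S, ∀ e : Bool, (pr e : V × V →ₗ[F] V) p = 0 → (pr (!e) : V × V →ₗ[F] V) p = 0

/-- domain / range -/
def side (e : Bool) (S : Submodule F (V × V)) : Submodule F V := S.map (pr e)

theorem side_mono {e : Bool} {S T : Submodule F (V × V)} (h : S ≤ T) : side e S ≤ side e T :=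
  Submodule.map_mono h

theorem side_sup (e : Bool) (S T : Submodule F (V × V)) :
    side e (S ⊔ T) = side e S ⊔ side e T := Submodule.map_sup _ _ _

theorem side_span (e : Bool) (s : Set (V × V)) :
    side e (span F s) = span F ((pr e : V × V →ₗ[F] V) '' s) := Submodule.map_span _ _

theorem Inj.add {S : Submodule F (V × V)} (hS : Inj S) {e : Bool} {x y : V}
    (hx : x ∉ side e S) (hy : y ∉ side (!e) S) : Inj (S ⊔ span F {mkp e x y}) := by
  intro p hp b hb
  rw [Submodule.mem_sup] at hp
  obtain ⟨s, hs, q, hq, rfl⟩ := hp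
  rw [Submodule.mem_span_singleton] at hq
  obtain ⟨l, rfl⟩ := hq
  have hl : l = 0 := by
    by_contra hne
    rw [map_add, map_smul] at hb
    have hb' : b = e ∨ b = !e := by cases b <;> cases e <;> simp
    rcases hb' with rfl | rfl
    · apply hx
      rw [pr_mkp_self] at hb
      refine ⟨-(l⁻¹ • s), S.neg_mem (S.smul_mem _ hs), ?_⟩
      rw [map_neg, map_smul]
      have : (pr b : V × V →ₗ[F] V) s = -(l • x) := eq_neg_of_add_eq_zero_left hb
      rw [this, smul_neg, neg_neg, smul_smul, inv_mul_cancel₀ hne, one_smul]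
    · apply hy
      rw [pr_mkp_not] at hb
      refine ⟨-(l⁻¹ • s), S.neg_mem (S.smul_mem _ hs), ?_⟩
      rw [map_neg, map_smul]
      have : (pr (!e) : V × V →ₗ[F] V) s = -(l • y) := eq_neg_of_add_eq_zero_left hb
      rw [this, smul_neg, neg_neg, smul_smul, inv_mul_cancel₀ hne, one_smul]
  subst hl
  rw [zero_smul, add_zero] at hb ⊢
  exact hS s hs b hb

/-- letters -/
abbrev Letter (F V : Type u) [Field F] [AddCommGroup V] [Module F V] := Bool × (V ≃ₗ[F] V)

/-- the partial map with graph `S` carries `v` to `t` along the word `m` (head first) -/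
def Reach (S : Submodule F (V × V)) : List (Letter F V) → V → V → Prop
  | [], v, t => v = t
  | x :: m, v, t => ∃ v', mkp x.1 (x.2 v) v' ∈ S ∧ Reach S m v' t

theorem Reach.mono {S T : Submodule F (V × V)} (h : S ≤ T) :
    ∀ (m : List (Letter F V)) (v t : V), Reach S m v t → Reach T m v t
  | [], _, _, hr => hr
  | _ :: m, _, t, ⟨v', h1, h2⟩ => ⟨v', h h1, Reach.mono h m v' t h2⟩

/-- admissible consecutive letters -/
def Adj (κ : Cardinal.{u}) (x y : Letter F V) : Prop := y.1 = !x.1 → NS κ y.2

open Classical in
theorem chain {κ : Cardinal.{u}} (hκ : ℵ₀ ≤ κ) (el : Bool) (t : V) :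
    ∀ (m : List (Letter F V)) (x : Letter F V),
      List.IsChain (Adj κ) (x :: m) → (List.getLast (x :: m) (by simp)).1 = el →
      ∀ (C : Bool → Submodule F V) (S : Submodule F (V × V)) (v : V),
        (∀ b, CoLarge κ (C b)) → (∀ b, side b S ≤ C b) → Inj S → t ∉ C (!el) →
        x.2 v ∉ C x.1 ⊔ (if x.1 = !el then span F {t} else ⊥) →
        ∃ s : Finset (V × V), Inj (S ⊔ span F (s : Set (V × V))) ∧
          Reach (S ⊔ span F (s : Set (V × V))) (x :: m) v t := by
  intro m
  induction m with
  | nil =>
    intro x _ hel C S v hC hS hI ht hv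
    simp only [List.getLast_singleton] at hel
    subst hel
    have h1 : x.2 v ∉ side x.1 S := by
      intro h
      exact hv (Submodule.mem_sup_left (hS _ h))
    have h2 : t ∉ side (!x.1) S := fun h => ht (hS _ h)
    refine ⟨{mkp x.1 (x.2 v) t}, ?_, ?_⟩
    · rw [Finset.coe_singleton]
      exact hI.add h1 h2
    · refine ⟨t, ?_, rfl⟩
      rw [Finset.coe_singleton]
      exact Submodule.mem_sup_right (Submodule.mem_span_singleton_self _)
  | cons y m ih =>
    intro x hch hel C S v hC hS hI ht hv
    rw [List.isChain_cons_cons] at hch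
    obtain ⟨hxy, hch'⟩ := hch
    rw [List.getLast_cons (by simp)] at hel
    set e := x.1 with he
    set T : Bool → Submodule F V := fun b => if b = !el then span F {t} else ⊥ with hT
    have hTco : ∀ b, CoLarge κ (C b ⊔ T b) := by
      intro b
      by_cases hb : b = !el
      · simp only [hT, hb, if_true]
        exact (hC _).sup_singleton hκ t
      · simp only [hT, hb, if_false, sup_bot_eq]
        exact hC _
    have hv' : x.2 v ∉ C e ⊔ T e := hv
    -- choose the next vector
    have hnext : ∃ v', v' ∉ C (!e) ⊔ T (!e) ∧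
        y.2 v' ∉ (if y.1 = e then C e ⊔ span F {x.2 v} else C (!e) ⊔ span F {v'}) ⊔ T y.1 := by
      by_cases hye : y.1 = e
      · simp only [hye, if_true]
        have hA : CoLarge κ ((C e ⊔ span F {x.2 v}) ⊔ T e) := by
          rw [sup_right_comm]
          exact (hTco e).sup_singleton hκ _
        obtain ⟨w, hw⟩ := hA.exists_notMem hκ
        have hA' : ∃ v', v' ∉ ((C e ⊔ span F {x.2 v}) ⊔ T e).comap y.2.toLinearMap :=
          ⟨y.2.symm w, by simpa using hw⟩
        obtain ⟨v', h1, h2⟩ := exists_notMem_two ((hTco (!e)).exists_notMem hκ) hA'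
        exact ⟨v', h1, by simpa using h2⟩
      · have hye' : y.1 = !e := by
          revert hye; cases y.1 <;> cases e <;> simp
        have hns : NS κ y.2 := hxy hye'
        obtain ⟨v', h1, h2⟩ := exists_generic hκ (hTco (!e)) hns
        refine ⟨v', h1, ?_⟩
        have hne : ¬ ((!e) = e) := by cases e <;> simp
        simp only [hye', hne, if_false]
        rwa [sup_right_comm]
    obtain ⟨v', hv1, hv2⟩ := hnext
    set C1 : Bool → Submodule F V := fun b => if b = e then C e ⊔ span F {x.2 v} else
      C (!e) ⊔ span F {v'} with hC1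
    have hne : ¬ ((!e) = e) := by cases e <;> simp
    have hbool : ∀ b, b = e ∨ b = !e := by intro b; cases b <;> cases e <;> simp
    have hC1co : ∀ b, CoLarge κ (C1 b) := by
      intro b
      rcases hbool b with rfl | rfl
      · simp only [hC1, if_true]
        exact (hC _).sup_singleton hκ _
      · simp only [hC1, hne, if_false]
        exact (hC _).sup_singleton hκ _
    have hS1 : ∀ b, side b (S ⊔ span F {mkp e (x.2 v) v'}) ≤ C1 b := by
      intro b
      rw [side_sup, side_span, Set.image_singleton]
      rcases hbool b with rfl | rfl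
      · simp only [hC1, if_true, pr_mkp_self]
        exact sup_le_sup_right (hS _) _
      · simp only [hC1, hne, if_false, pr_mkp_not]
        exact sup_le_sup_right (hS _) _
    have hxS : x.2 v ∉ side e S := fun h => hv' (Submodule.mem_sup_left (hS _ h))
    have hvS : v' ∉ side (!e) S := fun h => hv1 (Submodule.mem_sup_left (hS _ h))
    have hI1 : Inj (S ⊔ span F {mkp e (x.2 v) v'}) := hI.add hxS hvS
    have ht1 : t ∉ C1 (!el) := by
      rcases hbool (!el) with h | h
      · simp only [hC1, h, if_true]
        rw [h] at ht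
        apply exchange ht
        have : T e = span F {t} := by simp only [hT, h, if_true]
        rwa [this] at hv'
      · simp only [hC1, h, hne, if_false]
        rw [h] at ht
        apply exchange ht
        have : T (!e) = span F {t} := by simp only [hT, h, if_true]
        rwa [this] at hv1
    have hy1 : y.2 v' ∉ C1 y.1 ⊔ (if y.1 = !el then span F {t} else ⊥) := by
      have : C1 y.1 = (if y.1 = e then C e ⊔ span F {x.2 v} else C (!e) ⊔ span F {v'}) := rfl
      rw [this]
      exact hv2
    obtain ⟨s, hs1, hs2⟩ := ih y hch' hel C1 _ v' hC1co hS1 hI1 ht1 hy1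
    refine ⟨insert (mkp e (x.2 v) v') s, ?_, ?_⟩
    · rw [Finset.coe_insert, Submodule.span_insert, ← sup_assoc]
      exact hs1
    · rw [Finset.coe_insert, Submodule.span_insert, ← sup_assoc]
      refine ⟨v', ?_, hs2⟩
      exact Submodule.mem_sup_left (Submodule.mem_sup_right (Submodule.mem_span_singleton_self _))

/-- cyclically admissible words -/
def Good (κ : Cardinal.{u}) (m : List (Letter F V)) : Prop :=
  List.IsChain (Adj κ) m ∧ ∀ (x y : Letter F V), x ∈ m.getLast? → y ∈ m.head? → Adj κ x y

open Classical in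
theorem word_task {κ : Cardinal.{u}} (hκ : ℵ₀ ≤ κ) {S : Submodule F (V × V)} (hI : Inj S)
    (hS : ∀ b, CoLarge κ (side b S)) (x : Letter F V) (m : List (Letter F V))
    (hm : Good κ (x :: m)) (c : F) (hc : c ≠ 0) (z : V) :
    ∃ s : Finset (V × V), Inj (S ⊔ span F (s : Set (V × V))) ∧
      ∃ v, Reach (S ⊔ span F (s : Set (V × V))) (x :: m) v (c • v + z) := by
  set el := (List.getLast (x :: m) (by simp)).1 with hel
  have hadj : x.1 = !el → NS κ x.2 := by
    intro h
    refine hm.2 (List.getLast (x :: m) (by simp)) x ?_ ?_ h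
    · rw [List.getLast?_eq_getLast_of_ne_nil (by simp)]
      simp
    · simp
  have key : ∃ v, c • v + z ∉ side (!el) S ∧
      x.2 v ∉ side x.1 S ⊔ (if x.1 = !el then span F {c • v + z} else ⊥) := by
    by_cases h : x.1 = !el
    · have hns := hadj h
      simp only [h, if_true]
      obtain ⟨v, h1, h2⟩ := exists_generic hκ ((hS (!el)).sup_singleton hκ z) hns
      refine ⟨v, ?_, ?_⟩
      · intro hmem
        apply h1
        rw [mem_sup_singleton]
        refine ⟨-c⁻¹, ?_⟩
        have := (side (!el) S).smul_mem c⁻¹ hmem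
        rw [smul_add, smul_smul, inv_mul_cancel₀ hc, one_smul] at this
        rwa [neg_smul, sub_neg_eq_add]
      · intro hmem
        apply h2
        rw [mem_sup_singleton] at hmem
        obtain ⟨l, hl⟩ := hmem
        rw [mem_sup_singleton]
        refine ⟨l * c, ?_⟩
        rw [mem_sup_singleton]
        refine ⟨l, ?_⟩
        have : x.2 v - (l * c) • v - l • z = x.2 v - l • (c • v + z) := by
          rw [smul_add, smul_smul]; abel
        rwa [this]
    · have h' : x.1 = el := by
        revert h; cases x.1 <;> cases el <;> simp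
      simp only [h, if_false, sup_bot_eq]
      have hA : ∃ v, v ∉ (side x.1 S).comap x.2.toLinearMap := by
        obtain ⟨w, hw⟩ := (hS x.1).exists_notMem hκ
        exact ⟨x.2.symm w, by simpa using hw⟩
      obtain ⟨v, h1, h2⟩ := exists_notMem_two
        (((hS (!el)).sup_singleton hκ z).exists_notMem hκ) hA
      refine ⟨v, ?_, by simpa using h2⟩
      intro hmem
      apply h1
      rw [mem_sup_singleton]
      refine ⟨-c⁻¹, ?_⟩
      have := (side (!el) S).smul_mem c⁻¹ hmem
      rw [smul_add, smul_smul, inv_mul_cancel₀ hc, one_smul] at this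
      rwa [neg_smul, sub_neg_eq_add]
  obtain ⟨v, hv1, hv2⟩ := key
  obtain ⟨s, hs1, hs2⟩ := chain hκ el (c • v + z) m x hm.1 hel.symm (fun b => side b S) S v hS
    (fun b => le_rfl) hI hv1 hv2
  exact ⟨s, hs1, v, hs2⟩

theorem total_task {κ : Cardinal.{u}} (hκ : ℵ₀ ≤ κ) {S : Submodule F (V × V)} (hI : Inj S)
    (hS : ∀ b, CoLarge κ (side b S)) (e : Bool) (v : V) :
    ∃ s : Finset (V × V), Inj (S ⊔ span F (s : Set (V × V))) ∧
      v ∈ side e (S ⊔ span F (s : Set (V × V))) := by
  by_cases hv : v ∈ side e S
  · refine ⟨∅, ?_, ?_⟩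
    · simpa using hI
    · simpa using hv
  · obtain ⟨w, hw⟩ := (hS (!e)).exists_notMem hκ
    refine ⟨{mkp e v w}, ?_, ?_⟩
    · rw [Finset.coe_singleton]
      exact hI.add hv hw
    · rw [Finset.coe_singleton, side_sup, side_span, Set.image_singleton, pr_mkp_self]
      exact Submodule.mem_sup_right (Submodule.mem_span_singleton_self _)

end Pool.Agent.H14.GLCH
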