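import Pool.Agent.H14.GLCH.Rec

set_option autoImplicit false

open Cardinal Submodule

namespace Pool.Agent.H14.GLCH

universe u

variable {F : Type u} [Field F] {V : Type u} [AddCommGroup V] [Module F V]

/-- `h` or its inverse -/
noncomputable def hp (h : V ≃ₗ[F] V) (e : Bool) : V ≃ₗ[F] V := if e then h else h⁻¹

/-- value of a word, the head is applied first -/
noncomputable def evg (h : V ≃ₗ[F] V) : List (Letter F V) → (V ≃ₗ[F] V)
  | [] => 1
  | x :: m => evg h m * hp h x.1 * x.2

theorem reach_ev {S : Submodule F (V × V)} {h : V ≃ₗ[F] V} (hS : ∀ x y, (x, y) ∈ S → h x = y) :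
    ∀ (m : List (Letter F V)) (v t : V), Reach S m v t → evg h m v = t
  | [], v, t, hr => by
      simp only [Reach] at hr
      simp [evg, hr]
  | x :: m, v, t, ⟨v', h1, h2⟩ => by
      have h3 : hp h x.1 (x.2 v) = v' := by
        unfold hp
        cases hx : x.1
        · rw [hx] at h1
          simp only [mkp, Bool.false_eq_true, if_false] at h1 ⊢
          have := hS _ _ h1
          rw [← this]
          exact LinearEquiv.symm_apply_apply h v'
        · rw [hx] at h1
          simp only [mkp, if_true] at h1 ⊢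
          exact hS _ _ h1
      have h4 := reach_ev hS m v' t h2
      simp only [evg, LinearEquiv.mul_apply, h3, h4]

theorem mk_le_of_rank {κ : Cardinal.{u}} (hκ : ℵ₀ ≤ κ) (hF : #F ≤ κ)
    (hV : Module.rank F V ≤ κ) : #V ≤ κ := by
  have e := (Module.Free.chooseBasis F V).repr.toEquiv
  have h1 : #(Module.Free.ChooseBasisIndex F V) ≤ κ := by
    rw [← Module.Free.rank_eq_card_chooseBasisIndex]; exact hV
  rw [Cardinal.mk_congr e]
  have h2 : #(Module.Free.ChooseBasisIndex F V →₀ F) ≤
      #(Finset (Module.Free.ChooseBasisIndex F V × F)) :=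
    Cardinal.mk_le_of_injective (f := Finsupp.graph) (Finsupp.graph_injective _ _)
  refine h2.trans ?_
  have h3 : #(Module.Free.ChooseBasisIndex F V × F) ≤ κ := by
    rw [Cardinal.mk_prod, Cardinal.lift_id, Cardinal.lift_id]
    exact (mul_le_mul' h1 hF).trans (Cardinal.mul_eq_self hκ).le
  have h4 : #(Finset (Module.Free.ChooseBasisIndex F V × F)) ≤
      #(List (Module.Free.ChooseBasisIndex F V × F)) := by
    classical
    exact Cardinal.mk_le_of_surjective (f := fun l : List _ => l.toFinset)
      (fun s => ⟨s.toList, by simp⟩)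
  exact h4.trans ((Cardinal.mk_list_le_max _).trans (max_le hκ h3))

theorem exists_ext {κ : Cardinal.{u}} (hκ : ℵ₀ ≤ κ) (hF : #F ≤ κ)
    (hV : Module.rank F V ≤ κ) (Γ : Subgroup (V ≃ₗ[F] V)) (hΓ : #Γ ≤ κ) (U : Submodule F V)
    (hU : CoLarge κ U) (f : U ≃ₗ[F] U) :
    ∃ h : V ≃ₗ[F] V, (∀ u : U, h (u : V) = (f u : V)) ∧
      ∀ (x : Letter F V) (m : List (Letter F V)), (∀ y ∈ x :: m, y.2 ∈ Γ) → Good κ (x :: m) →
        ∀ c : F, c ≠ 0 → ∀ z : V, ∃ v : V, evg h (x :: m) v = c • v + z := by
  classical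
  have hVc : #V ≤ κ := mk_le_of_rank hκ hF hV
  -- tasks
  let T := (List (Bool × Γ) × F × V) ⊕ (Bool × V)
  have hmul : ∀ {α β : Type u}, #α ≤ κ → #β ≤ κ → #(α × β) ≤ κ := by
    intro α β h1 h2
    rw [Cardinal.mk_prod, Cardinal.lift_id, Cardinal.lift_id]
    exact (mul_le_mul' h1 h2).trans (Cardinal.mul_eq_self hκ).le
  have hmulB : ∀ {β : Type u}, #β ≤ κ → #(Bool × β) ≤ κ := by
    intro β h2
    rw [Cardinal.mk_prod, Cardinal.lift_uzero, Cardinal.mk_bool]
    refine (mul_le_mul' ?_ h2).trans (Cardinal.mul_eq_self hκ).le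
    rw [Cardinal.lift_ofNat]
    exact (Cardinal.natCast_lt_aleph0 (n := 2)).le.trans hκ
  have hT : #T ≤ κ := by
    change #((List (Bool × Γ) × F × V) ⊕ (Bool × V)) ≤ κ
    rw [Cardinal.mk_sum, Cardinal.lift_id, Cardinal.lift_id]
    refine (add_le_add ?_ (hmulB hVc)).trans (Cardinal.add_eq_self hκ).le
    refine hmul ?_ (hmul hF hVc)
    exact (Cardinal.mk_list_le_max _).trans (max_le hκ (hmulB hΓ))
  obtain ⟨r, hwo, hr⟩ := Cardinal.exists_ord_eq T
  have hrlt : ∀ t : T, #{s : T // r s t} < κ := by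
    intro t
    have := Cardinal.card_typein_lt t hr
    rw [Ordinal.card_typein] at this
    exact this.trans_le hT
  let S0 : Submodule F (V × V) :=
    LinearMap.range (U.subtype.prod (U.subtype.comp f.toLinearMap))
  have hS0mem : ∀ u : U, ((u : V), (f u : V)) ∈ S0 := fun u => ⟨u, rfl⟩
  have hS0 : Inj S0 := by
    rintro _ ⟨u, rfl⟩ e he
    have : u = 0 := by
      cases e
      · have he' : (f u : V) = 0 := he
        have : f u = 0 := Subtype.ext he'
        simpa using this
      · have he' : (u : V) = 0 := he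
        exact Subtype.ext he'
    rw [this, map_zero, map_zero]
  have hside : ∀ b, side b S0 ≤ U := by
    intro b
    rintro _ ⟨_, ⟨u, rfl⟩, rfl⟩
    cases b
    · simp [pr]
    · simp [pr]
  let emb : Bool × Γ → Letter F V := fun p => (p.1, (p.2 : V ≃ₗ[F] V))
  let Ach : T → Submodule F (V × V) → Prop := fun t S =>
    match t with
    | Sum.inl (l, c, z) => ∀ (x : Letter F V) (m : List (Letter F V)), l.map emb = x :: m →
        Good κ (x :: m) → c ≠ 0 → ∃ v, Reach S (x :: m) v (c • v + z)
    | Sum.inr (e, v) => v ∈ side e S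
  obtain ⟨S, hle, hI, hA⟩ := main_rec r S0 Ach hκ hrlt hS0 (fun b => hU.mono (hside b))
    (by
      rintro (⟨l, c, z⟩ | ⟨e, v⟩) S hI hco
      · by_cases hc : c = 0
        · refine ⟨∅, by simpa using hI, ?_⟩
          intro x m _ _ hc'
          exact absurd hc hc'
        · cases hl : l.map emb with
          | nil =>
            refine ⟨∅, by simpa using hI, ?_⟩
            intro x m hlm
            rw [hl] at hlm
            exact absurd hlm (by simp)
          | cons x0 m0 =>
            by_cases hg : Good κ (x0 :: m0)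
            · obtain ⟨s, hs1, hs2⟩ := word_task hκ hI hco x0 m0 hg c hc z
              refine ⟨s, hs1, ?_⟩
              intro x m hlm _ _
              rw [hl] at hlm
              rw [← hlm]
              exact hs2
            · refine ⟨∅, by simpa using hI, ?_⟩
              intro x m hlm hg'
              rw [hl] at hlm
              rw [← hlm] at hg'
              exact absurd hg' hg
      · exact total_task hκ hI hco e v)
    (by
      rintro (⟨l, c, z⟩ | ⟨e, v⟩) S S' hSS' hach
      · intro x m hlm hg hc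
        obtain ⟨v, hv⟩ := hach x m hlm hg hc
        exact ⟨v, hv.mono hSS'⟩
      · exact side_mono hSS' hach)
  obtain ⟨h, hh⟩ := exists_equiv_of_graph hI (fun v => hA (Sum.inr (true, v)))
    (fun v => hA (Sum.inr (false, v)))
  refine ⟨h, fun u => hh _ _ (hle (hS0mem u)), ?_⟩
  intro x m hmem hg c hc z
  have hl : ∃ l : List (Bool × Γ), l.map emb = x :: m := by
    generalize x :: m = w at hmem
    induction w with
    | nil => exact ⟨[], rfl⟩
    | cons y w ih =>
      obtain ⟨l, hl⟩ := ih (fun y' hy' => hmem y' (List.mem_cons_of_mem _ hy'))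
      exact ⟨(y.1, ⟨y.2, hmem y (by simp)⟩) :: l, by rw [List.map_cons, hl]⟩
  obtain ⟨l, hl⟩ := hl
  obtain ⟨v, hv⟩ := hA (Sum.inl (l, c, z)) x m hl hg hc
  exact ⟨v, reach_ev hh _ _ _ hv⟩

end Pool.Agent.H14.GLCH
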