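import Pool.Agent.H14.GLCH.Star

set_option autoImplicit false

open Cardinal Submodule

namespace Pool.Agent.H14.GLCH

universe u

theorem mk_closure_le {G : Type u} [Group G] (s : Set G) {κ : Cardinal.{u}} (hκ : ℵ₀ ≤ κ)
    (hs : #s ≤ κ) : #(Subgroup.closure s) ≤ κ := by
  rcases s.eq_empty_or_nonempty with rfl | hne
  · rw [Subgroup.closure_empty]
    exact (Cardinal.mk_le_one_iff_set_subsingleton.mpr (by
      intro a ha b hb
      rw [SetLike.mem_coe, Subgroup.mem_bot] at ha hb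
      rw [ha, hb])).trans ((one_lt_aleph0).le.trans hκ)
  · have : Nonempty s := hne.to_subtype
    rw [FreeGroup.closure_eq_range]
    have h1 : #(FreeGroup.lift ((↑) : s → G)).range ≤ #(FreeGroup s) :=
      Cardinal.mk_le_of_surjective (MonoidHom.rangeRestrict_surjective _)
    refine h1.trans ?_
    rw [Cardinal.mk_freeGroup]
    exact max_le hs hκ

variable {F : Type u} [Field F] {V : Type u} [AddCommGroup V] [Module F V]

section outer

variable (κ : Cardinal.{u})

/-- all local tasks -/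
abbrev Pairs (F V : Type u) [Field F] [AddCommGroup V] [Module F V] (κ : Cardinal.{u}) :=
  Σ U : {U : Submodule F V // CoLarge κ U}, (U.1 ≃ₗ[F] U.1)

theorem mk_pairs_le (hκ : ℵ₀ ≤ κ) (hV : #V ≤ κ) : #(Pairs F V κ) ≤ 2 ^ κ := by
  let g : Pairs F V κ → Set (V × V) := fun p =>
    {q | ∃ u : p.1.1, q = ((u : V), (p.2 u : V))}
  have hg : Function.Injective g := by
    rintro ⟨⟨U, hU⟩, f⟩ ⟨⟨U', hU'⟩, f'⟩ h
    have hUU : U = U' := by
      ext v
      constructor
      · intro hv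
        have h1 : (v, (f ⟨v, hv⟩ : V)) ∈ g ⟨⟨U, hU⟩, f⟩ := ⟨⟨v, hv⟩, rfl⟩
        rw [h] at h1
        obtain ⟨u, hu⟩ := h1
        have : v = u := congrArg Prod.fst hu
        rw [this]; exact u.2
      · intro hv
        have h1 : (v, (f' ⟨v, hv⟩ : V)) ∈ g ⟨⟨U', hU'⟩, f'⟩ := ⟨⟨v, hv⟩, rfl⟩
        rw [← h] at h1
        obtain ⟨u, hu⟩ := h1
        have : v = u := congrArg Prod.fst hu
        rw [this]; exact u.2
    subst hUU
    have hff : f = f' := by
      ext v
      have h1 : ((v : V), (f v : V)) ∈ g ⟨⟨U, hU⟩, f⟩ := ⟨v, rfl⟩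
      rw [h] at h1
      obtain ⟨u, hu⟩ := h1
      have h2 : (v : V) = u := congrArg Prod.fst hu
      have h3 : (f v : V) = f' u := congrArg Prod.snd hu
      have h4 : v = u := Subtype.ext h2
      rw [h3, h4]
    subst hff
    rfl
  refine (Cardinal.mk_le_of_injective hg).trans ?_
  rw [Cardinal.mk_set]
  refine Cardinal.power_le_power_left two_ne_zero ?_
  rw [Cardinal.mk_prod, Cardinal.lift_id]
  exact (mul_le_mul' hV hV).trans (Cardinal.mul_eq_self hκ).le

open Classical in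
/-- one extension -/
noncomputable def extF (Γ : Subgroup (V ≃ₗ[F] V)) (x : Pairs F V κ) : V ≃ₗ[F] V :=
  if h : ∃ h : V ≃ₗ[F] V, (∀ u : x.1.1, h (u : V) = (x.2 u : V)) ∧
      ∀ g ∈ Γ ⊔ Subgroup.closure {h}, Star κ g then h.choose else 1

variable {I : Type u} (P : I → Pairs F V κ) (r : I → I → Prop) [IsWellOrder I r]

/-- the generators -/
noncomputable def hh : I → (V ≃ₗ[F] V) :=
  (IsWellFounded.wf (r := r)).fix
    (fun x ih => extF κ (Subgroup.closure {g | ∃ (y : I) (h : r y x), g = ih y h}) (P x))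

/-- the group before stage `x` -/
noncomputable def Gm (x : I) : Subgroup (V ≃ₗ[F] V) :=
  Subgroup.closure {g | ∃ (y : I) (_ : r y x), g = hh κ P r y}

/-- the group after stage `x` -/
noncomputable def Gm' (x : I) : Subgroup (V ≃ₗ[F] V) :=
  Gm κ P r x ⊔ Subgroup.closure {hh κ P r x}

theorem hh_eq (x : I) : hh κ P r x = extF κ (Gm κ P r x) (P x) := by
  unfold hh
  rw [WellFounded.fix_eq]
  rfl

theorem Gm_le_Gm' (x : I) : Gm κ P r x ≤ Gm' κ P r x := le_sup_left

theorem Gm'_le_Gm {y x : I} (h : r y x) : Gm' κ P r y ≤ Gm κ P r x := by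
  refine sup_le (Subgroup.closure_mono ?_) (Subgroup.closure_mono ?_)
  · rintro g ⟨z, hz, rfl⟩
    exact ⟨z, _root_.trans hz h, rfl⟩
  · intro g hg
    rw [Set.mem_singleton_iff] at hg
    exact ⟨y, h, hg⟩

theorem mem_Gm {x : I} {g : V ≃ₗ[F] V} (hg : g ∈ Gm κ P r x) :
    g = 1 ∨ ∃ y, r y x ∧ g ∈ Gm' κ P r y := by
  by_cases hne : ∃ y, r y x
  · right
    obtain ⟨y0, hy0⟩ := hne
    have _i : Nonempty {y : I // r y x} := ⟨⟨y0, hy0⟩⟩
    have hdir : Directed (· ≤ ·) (fun y : {y : I // r y x} => Gm' κ P r y.1) := by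
      intro a b
      rcases trichotomous_of r a.1 b.1 with h | h | h
      · exact ⟨b, (Gm'_le_Gm κ P r h).trans (Gm_le_Gm' κ P r _), le_rfl⟩
      · have hab : a = b := Subtype.ext h
        subst hab
        exact ⟨a, le_rfl, le_rfl⟩
      · exact ⟨a, le_rfl, (Gm'_le_Gm κ P r h).trans (Gm_le_Gm' κ P r _)⟩
    have hle : Gm κ P r x ≤ ⨆ y : {y : I // r y x}, Gm' κ P r y.1 := by
      unfold Gm
      rw [Subgroup.closure_le]
      rintro g ⟨y, hy, rfl⟩
      have h1 : hh κ P r y ∈ Gm' κ P r y :=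
        (le_sup_right : Subgroup.closure {hh κ P r y} ≤ _) (Subgroup.subset_closure rfl)
      exact (le_iSup (fun y : {y : I // r y x} => Gm' κ P r y.1) ⟨y, hy⟩) h1
    have := hle hg
    rw [Subgroup.mem_iSup_of_directed hdir] at this
    obtain ⟨y, hy⟩ := this
    exact ⟨y.1, y.2, hy⟩
  · left
    unfold Gm at hg
    have : {g | ∃ (y : I) (_ : r y x), g = hh κ P r y} = ∅ := by
      rw [Set.eq_empty_iff_forall_notMem]
      rintro g ⟨y, hy, -⟩
      exact hne ⟨y, hy⟩
    rw [this, Subgroup.closure_empty, Subgroup.mem_bot] at hg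
    exact hg

theorem mem_Gall {g : V ≃ₗ[F] V} (hg : g ∈ Subgroup.closure (Set.range (hh κ P r))) :
    g = 1 ∨ ∃ y, g ∈ Gm' κ P r y := by
  by_cases hne : Nonempty (I)
  · right
    have hdir : Directed (· ≤ ·) (fun y : I => Gm' κ P r y) := by
      intro a b
      rcases trichotomous_of r a b with h | h | h
      · exact ⟨b, (Gm'_le_Gm κ P r h).trans (Gm_le_Gm' κ P r _), le_rfl⟩
      · subst h
        exact ⟨a, le_rfl, le_rfl⟩
      · exact ⟨a, le_rfl, (Gm'_le_Gm κ P r h).trans (Gm_le_Gm' κ P r _)⟩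
    have hle : Subgroup.closure (Set.range (hh κ P r)) ≤ ⨆ y : I, Gm' κ P r y := by
      rw [Subgroup.closure_le]
      rintro g ⟨y, rfl⟩
      have h1 : hh κ P r y ∈ Gm' κ P r y :=
        (le_sup_right : Subgroup.closure {hh κ P r y} ≤ _) (Subgroup.subset_closure rfl)
      exact (le_iSup (fun y : I => Gm' κ P r y) y) h1
    have := hle hg
    rwa [Subgroup.mem_iSup_of_directed hdir] at this
  · left
    have hemp : Set.range (hh κ P r) = ∅ := by
      rw [Set.range_eq_empty_iff]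
      exact not_nonempty_iff.mp hne
    rw [hemp, Subgroup.closure_empty, Subgroup.mem_bot] at hg
    exact hg

theorem star_one : Star κ (1 : V ≃ₗ[F] V) := Or.inl ⟨1, fun v => by simp⟩

theorem outer (hκ : ℵ₀ ≤ κ) (hF : #F ≤ κ) (hV : Module.rank F V ≤ κ)
    (hr : ∀ x : I, #{y : I // r y x} ≤ κ) (x : I) :
    (∀ u : (P x).1.1, hh κ P r x (u : V) = ((P x).2 u : V)) ∧ ∀ g ∈ Gm' κ P r x, Star κ g := by
  induction x using (IsWellFounded.wf (r := r)).induction with
  | _ x ih =>
    have hstar : ∀ g ∈ Gm κ P r x, Star κ g := by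
      intro g hg
      rcases mem_Gm κ P r hg with rfl | ⟨y, hy, hgy⟩
      · exact star_one κ
      · exact (ih y hy).2 g hgy
    have hcard : #(Gm κ P r x) ≤ κ := by
      apply mk_closure_le _ hκ
      refine le_trans ?_ (hr x)
      refine Cardinal.mk_le_of_surjective
        (f := fun y : {y : I // r y x} =>
          (⟨hh κ P r y.1, ⟨y.1, y.2, rfl⟩⟩ : {g | ∃ (y : I) (_ : r y x), g = hh κ P r y})) ?_
      rintro ⟨g, y, hy, rfl⟩
      exact ⟨⟨y, hy⟩, rfl⟩
    obtain ⟨h, hh1, hh2⟩ := exists_ext hκ hF hV (Gm κ P r x) hcard (P x).1.1 (P x).1.2 (P x).2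
    have hex : ∃ h : V ≃ₗ[F] V, (∀ u : (P x).1.1, h (u : V) = ((P x).2 u : V)) ∧
        ∀ g ∈ Gm κ P r x ⊔ Subgroup.closure {h}, Star κ g :=
      ⟨h, hh1, star_closure hκ (Gm κ P r x) hstar h hh2⟩
    have he : hh κ P r x = hex.choose := by
      rw [hh_eq]
      unfold extF
      rw [dif_pos hex]
    unfold Gm'
    rw [he]
    exact hex.choose_spec

end outer

theorem exists_not_star {κ : Cardinal.{u}} (hκ : ℵ₀ ≤ κ) (hV : Module.rank F V = κ) :
    ∃ g : V ≃ₗ[F] V, ¬ Star κ g := by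
  have b := Module.Free.chooseBasis F V
  have hinf : Infinite (Module.Free.ChooseBasisIndex F V) := by
    rw [Cardinal.infinite_iff, ← Module.Free.rank_eq_card_chooseBasisIndex, hV]
    exact hκ
  obtain ⟨i, j, hij⟩ := exists_pair_ne (Module.Free.ChooseBasisIndex F V)
  have hbi : b.coord j (b i) = 0 := by
    rw [Module.Basis.coord_apply, Module.Basis.repr_self, Finsupp.single_eq_of_ne]
    exact hij.symm
  have hbj : b.coord j (b j) = 1 := by
    rw [Module.Basis.coord_apply, Module.Basis.repr_self, Finsupp.single_eq_same]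
  have hg : ∀ v, LinearEquiv.transvection hbi v = v + b.coord j v • b i := fun v => rfl
  refine ⟨LinearEquiv.transvection hbi, ?_⟩
  rintro (⟨c, hc⟩ | hns)
  · have h1 := hc (b j)
    rw [hg, hbj, one_smul] at h1
    have h2 := congrArg (b.coord i) h1
    rw [map_add, map_smul] at h2
    have h3 : b.coord i (b j) = 0 := by
      rw [Module.Basis.coord_apply, Module.Basis.repr_self, Finsupp.single_eq_of_ne]
      exact hij
    have h4 : b.coord i (b i) = 1 := by
      rw [Module.Basis.coord_apply, Module.Basis.repr_self, Finsupp.single_eq_same]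
    rw [h3, h4, smul_zero, zero_add] at h2
    exact one_ne_zero h2
  · apply hns 1
    have hbot : CoLarge κ (⊥ : Submodule F V) := by
      unfold CoLarge
      rw [(Submodule.quotEquivOfEqBot (⊥ : Submodule F V) rfl).rank_eq, hV]
    refine (hbot.sup_singleton hκ (b i)).mono ?_
    rintro _ ⟨v, rfl⟩
    rw [bot_sup_eq, Submodule.mem_span_singleton]
    refine ⟨b.coord j v, ?_⟩
    simp only [LinearMap.sub_apply, LinearEquiv.coe_coe, hg, LinearMap.smul_apply,
      LinearMap.id_apply, one_smul, add_sub_cancel_left]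

/-- **Family version.** Any family of at most `κ⁺` automorphisms of subspaces of codimension `κ`
is induced by one proper subgroup, provided `|F| ≤ κ`. -/
theorem family {κ : Cardinal.{u}} (hκ : ℵ₀ ≤ κ) (hF : #F ≤ κ) (hV : Module.rank F V = κ)
    {I : Type u} (hI : #I ≤ Order.succ κ) (P : I → Pairs F V κ) :
    ∃ H : Subgroup (V ≃ₗ[F] V), H ≠ ⊤ ∧
      ∀ i : I, ∃ h ∈ H, ∀ u : (P i).1.1, h (u : V) = ((P i).2 u : V) := by
  obtain ⟨r, hwo, hr⟩ := Cardinal.exists_ord_eq I
  have hrlt : ∀ x : I, #{y : I // r y x} ≤ κ := by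
    intro x
    have h1 := Cardinal.card_typein_lt x hr
    rw [Ordinal.card_typein] at h1
    exact Order.lt_succ_iff.mp (h1.trans_le hI)
  have hout := outer κ P r hκ hF hV.le hrlt
  refine ⟨Subgroup.closure (Set.range (hh κ P r)), ?_, ?_⟩
  · intro htop
    obtain ⟨g, hg⟩ := exists_not_star (F := F) (V := V) hκ hV
    apply hg
    have hmem : g ∈ Subgroup.closure (Set.range (hh κ P r)) := by
      rw [htop]; exact Subgroup.mem_top g
    rcases mem_Gall κ P r hmem with rfl | ⟨y, hy⟩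
    · exact star_one κ
    · exact (hout y).2 g hy
  · intro i
    exact ⟨hh κ P r i, Subgroup.subset_closure ⟨_, rfl⟩, (hout i).1⟩

/-- **Main theorem.** If `2 ^ κ = κ⁺` and `|F| ≤ κ`, there is a proper subgroup of `GL(V)`
inducing the full linear group on every subspace of codimension `κ`. -/
theorem main {κ : Cardinal.{u}} (hκ : ℵ₀ ≤ κ) (hgch : 2 ^ κ = Order.succ κ) (hF : #F ≤ κ)
    (hV : Module.rank F V = κ) :
    ∃ H : Subgroup (V ≃ₗ[F] V), H ≠ ⊤ ∧
      ∀ U : Submodule F V, Module.rank F (V ⧸ U) = κ → ∀ f : U ≃ₗ[F] U,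
        ∃ h ∈ H, ∀ u : U, h (u : V) = (f u : V) := by
  have hVc : #V ≤ κ := mk_le_of_rank hκ hF hV.le
  obtain ⟨H, hH, hH2⟩ := family hκ hF hV (I := Pairs F V κ)
    ((mk_pairs_le κ hκ hVc).trans hgch.le) id
  exact ⟨H, hH, fun U hU f => hH2 ⟨⟨U, hU.ge⟩, f⟩⟩

end Pool.Agent.H14.GLCH
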