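import Pool.Agent.H14.GLCH.Chain

set_option autoImplicit false

open Cardinal Submodule

namespace Pool.Agent.H14.GLCH

universe u

variable {F : Type u} [Field F] {V : Type u} [AddCommGroup V] [Module F V]

section recursion

variable {T : Type u} (r : T → T → Prop) [IsWellOrder T r]
  (S0 : Submodule F (V × V)) (Ach : T → Submodule F (V × V) → Prop)

open Classical in
/-- one step -/
noncomputable def stepF (S : Submodule F (V × V)) (t : T) : Finset (V × V) :=
  if h : ∃ s : Finset (V × V), Inj (S ⊔ span F (s : Set (V × V))) ∧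
      Ach t (S ⊔ span F (s : Set (V × V))) then h.choose else ∅

/-- the finite sets added at each stage -/
noncomputable def xs : T → Finset (V × V) :=
  (IsWellFounded.wf (r := r)).fix
    (fun t ih => stepF Ach (S0 ⊔ span F (⋃ (s : T) (h : r s t), (ih s h : Set (V × V)))) t)

/-- the graph before stage `t` -/
noncomputable def St (t : T) : Submodule F (V × V) :=
  S0 ⊔ span F (⋃ (s : T) (_ : r s t), (xs r S0 Ach s : Set (V × V)))

/-- the graph after stage `t` -/
noncomputable def St' (t : T) : Submodule F (V × V) :=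
  St r S0 Ach t ⊔ span F (xs r S0 Ach t : Set (V × V))

/-- the final graph -/
noncomputable def Sinf : Submodule F (V × V) :=
  S0 ⊔ span F (⋃ (s : T), (xs r S0 Ach s : Set (V × V)))

theorem xs_eq (t : T) : xs r S0 Ach t = stepF Ach (St r S0 Ach t) t := by
  unfold xs
  rw [WellFounded.fix_eq]
  rfl

theorem S0_le_St (t : T) : S0 ≤ St r S0 Ach t := le_sup_left

theorem St_le_St' (t : T) : St r S0 Ach t ≤ St' r S0 Ach t := le_sup_left

theorem St'_le_St {s t : T} (h : r s t) : St' r S0 Ach s ≤ St r S0 Ach t := by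
  unfold St' St
  refine sup_le (sup_le le_sup_left ?_) ?_
  · refine le_trans (Submodule.span_mono ?_) le_sup_right
    intro p hp
    simp only [Set.mem_iUnion] at hp ⊢
    obtain ⟨s', hs', hp⟩ := hp
    exact ⟨s', _root_.trans hs' h, hp⟩
  · refine le_trans (Submodule.span_mono ?_) le_sup_right
    intro p hp
    simp only [Set.mem_iUnion]
    exact ⟨s, h, hp⟩

theorem St'_le_Sinf (t : T) : St' r S0 Ach t ≤ Sinf r S0 Ach := by
  unfold St' St Sinf
  refine sup_le (sup_le le_sup_left ?_) ?_
  · refine le_trans (Submodule.span_mono ?_) le_sup_right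
    intro p hp
    simp only [Set.mem_iUnion] at hp ⊢
    obtain ⟨s', hs', hp⟩ := hp
    exact ⟨s', hp⟩
  · refine le_trans (Submodule.span_mono ?_) le_sup_right
    intro p hp
    simp only [Set.mem_iUnion]
    exact ⟨t, hp⟩

theorem mem_St {t : T} {p : V × V} (hp : p ∈ St r S0 Ach t) :
    p ∈ S0 ∨ ∃ s, r s t ∧ p ∈ St' r S0 Ach s := by
  by_cases hne : ∃ s, r s t
  · right
    obtain ⟨s0, hs0⟩ := hne
    have hle : St r S0 Ach t ≤ ⨆ s : {s : T // r s t}, St' r S0 Ach s.1 := by
      unfold St
      refine sup_le ?_ ?_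
      · refine le_trans ?_ (le_iSup (fun s : {s : T // r s t} => St' r S0 Ach s.1) ⟨s0, hs0⟩)
        exact (S0_le_St r S0 Ach s0).trans (St_le_St' r S0 Ach s0)
      · rw [Submodule.span_le]
        intro q hq
        simp only [Set.mem_iUnion] at hq
        obtain ⟨s, hs, hq⟩ := hq
        have : q ∈ St' r S0 Ach s := Submodule.mem_sup_right (Submodule.subset_span hq)
        exact (le_iSup (fun s : {s : T // r s t} => St' r S0 Ach s.1) ⟨s, hs⟩) this
    have hdir : Directed (· ≤ ·) (fun s : {s : T // r s t} => St' r S0 Ach s.1) := by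
      intro a b
      rcases trichotomous_of r a.1 b.1 with h | h | h
      · exact ⟨b, (St'_le_St r S0 Ach h).trans (St_le_St' r S0 Ach _), le_rfl⟩
      · have hab : a = b := Subtype.ext h
        subst hab
        exact ⟨a, le_rfl, le_rfl⟩
      · exact ⟨a, le_rfl, (St'_le_St r S0 Ach h).trans (St_le_St' r S0 Ach _)⟩
    have _i : Nonempty {s : T // r s t} := ⟨⟨s0, hs0⟩⟩
    have := hle hp
    rw [Submodule.mem_iSup_of_directed _ hdir] at this
    obtain ⟨s, hs⟩ := this
    exact ⟨s.1, s.2, hs⟩
  · left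
    unfold St at hp
    have : (⋃ (s : T) (_ : r s t), (xs r S0 Ach s : Set (V × V))) = ∅ := by
      rw [Set.eq_empty_iff_forall_notMem]
      intro q hq
      simp only [Set.mem_iUnion] at hq
      obtain ⟨s, hs, -⟩ := hq
      exact hne ⟨s, hs⟩
    rw [this, Submodule.span_empty, sup_bot_eq] at hp
    exact hp

theorem mem_Sinf {p : V × V} (hp : p ∈ Sinf r S0 Ach) :
    p ∈ S0 ∨ ∃ s, p ∈ St' r S0 Ach s := by
  by_cases hne : Nonempty T
  · right
    obtain ⟨s0⟩ := hne
    have hle : Sinf r S0 Ach ≤ ⨆ s : T, St' r S0 Ach s := by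
      unfold Sinf
      refine sup_le ?_ ?_
      · refine le_trans ?_ (le_iSup (fun s : T => St' r S0 Ach s) s0)
        exact (S0_le_St r S0 Ach s0).trans (St_le_St' r S0 Ach s0)
      · rw [Submodule.span_le]
        intro q hq
        simp only [Set.mem_iUnion] at hq
        obtain ⟨s, hq⟩ := hq
        have : q ∈ St' r S0 Ach s := Submodule.mem_sup_right (Submodule.subset_span hq)
        exact (le_iSup (fun s : T => St' r S0 Ach s) s) this
    have hdir : Directed (· ≤ ·) (fun s : T => St' r S0 Ach s) := by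
      intro a b
      rcases trichotomous_of r a b with h | h | h
      · exact ⟨b, (St'_le_St r S0 Ach h).trans (St_le_St' r S0 Ach _), le_rfl⟩
      · exact ⟨b, by rw [h], le_rfl⟩
      · exact ⟨a, le_rfl, (St'_le_St r S0 Ach h).trans (St_le_St' r S0 Ach _)⟩
    have _i : Nonempty T := ⟨s0⟩
    have := hle hp
    rw [Submodule.mem_iSup_of_directed _ hdir] at this
    exact this
  · left
    unfold Sinf at hp
    have : (⋃ (s : T), (xs r S0 Ach s : Set (V × V))) = ∅ := by
      rw [Set.eq_empty_iff_forall_notMem]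
      intro q hq
      simp only [Set.mem_iUnion] at hq
      obtain ⟨s, -⟩ := hq
      exact hne ⟨s⟩
    rw [this, Submodule.span_empty, sup_bot_eq] at hp
    exact hp

theorem card_bUnion_lt {κ : Cardinal.{u}} (hκ : ℵ₀ ≤ κ) (x : T → Finset (V × V)) (t : T)
    (ht : #{s : T // r s t} < κ) :
    #(⋃ (s : T) (_ : r s t), (x s : Set (V × V)) : Set (V × V)) < κ := by
  have heq : (⋃ (s : T) (_ : r s t), (x s : Set (V × V))) =
      ⋃ s : {s : T // r s t}, (x s.1 : Set (V × V)) := by
    ext p; simp
  rw [heq]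
  by_cases hfin : #{s : T // r s t} < ℵ₀
  · have : Finite {s : T // r s t} := Cardinal.lt_aleph0_iff_finite.mp hfin
    refine lt_of_lt_of_le ?_ hκ
    rw [Cardinal.lt_aleph0_iff_set_finite]
    exact Set.finite_iUnion (fun s => (x s.1).finite_toSet)
  · push Not at hfin
    refine lt_of_le_of_lt (Cardinal.mk_iUnion_le_sum_mk.trans ?_) ht
    refine (Cardinal.sum_le_sum _ (fun _ => ℵ₀) (fun s => ?_)).trans ?_
    · exact (Cardinal.mk_le_aleph0_iff.mpr (x s.1).countable_toSet)
    · rw [Cardinal.sum_const, Cardinal.lift_id, Cardinal.lift_aleph0]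
      rw [Cardinal.mul_aleph0_eq hfin]

theorem main_rec {κ : Cardinal.{u}} (hκ : ℵ₀ ≤ κ) (hr : ∀ t : T, #{s : T // r s t} < κ)
    (hS0 : Inj S0) (hco : ∀ b, CoLarge κ (side b S0))
    (hstep : ∀ (t : T) (S : Submodule F (V × V)), Inj S → (∀ b, CoLarge κ (side b S)) →
      ∃ s : Finset (V × V), Inj (S ⊔ span F (s : Set (V × V))) ∧
        Ach t (S ⊔ span F (s : Set (V × V))))
    (hmono : ∀ (t : T) (S S' : Submodule F (V × V)), S ≤ S' → Ach t S → Ach t S') :
    ∃ S : Submodule F (V × V), S0 ≤ S ∧ Inj S ∧ ∀ t, Ach t S := by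
  have hcoL : ∀ t b, CoLarge κ (side b (St r S0 Ach t)) := by
    intro t b
    unfold St
    rw [side_sup, side_span]
    apply (hco b).sup_span hκ
    exact lt_of_le_of_lt Cardinal.mk_image_le (card_bUnion_lt r hκ _ t (hr t))
  have hI : ∀ t, Inj (St' r S0 Ach t) ∧ Ach t (St' r S0 Ach t) := by
    intro t
    induction t using (IsWellFounded.wf (r := r)).induction with
    | _ t ih =>
      have hIt : Inj (St r S0 Ach t) := by
        intro p hp e he
        rcases mem_St r S0 Ach hp with h | ⟨s, hs, h⟩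
        · exact hS0 p h e he
        · exact (ih s hs).1 p h e he
      have hex := hstep t (St r S0 Ach t) hIt (hcoL t)
      have : xs r S0 Ach t = hex.choose := by
        rw [xs_eq]
        unfold stepF
        rw [dif_pos hex]
      unfold St'
      rw [this]
      exact hex.choose_spec
  refine ⟨Sinf r S0 Ach, le_sup_left, ?_, fun t => hmono t _ _ (St'_le_Sinf r S0 Ach t) (hI t).2⟩
  intro p hp e he
  rcases mem_Sinf r S0 Ach hp with h | ⟨s, h⟩
  · exact hS0 p h e he
  · exact (hI s).1 p h e he

end recursion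

/-- a total injective and surjective graph gives a linear equivalence -/
theorem exists_equiv_of_graph {S : Submodule F (V × V)} (hI : Inj S)
    (h1 : ∀ v, v ∈ side true S) (h2 : ∀ v, v ∈ side false S) :
    ∃ h : V ≃ₗ[F] V, ∀ x y, (x, y) ∈ S → h x = y := by
  have hzero : ∀ p ∈ S, ∀ e : Bool, (pr e : V × V →ₗ[F] V) p = 0 → p = 0 := by
    intro p hp e he
    have h' := hI p hp e he
    cases e
    · simp only [pr, Bool.false_eq_true, if_false, LinearMap.snd_apply, Bool.not_false, if_true,
        LinearMap.fst_apply] at he h'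
      exact Prod.ext h' he
    · simp only [pr, Bool.false_eq_true, if_false, LinearMap.snd_apply, Bool.not_true, if_true,
        LinearMap.fst_apply] at he h'
      exact Prod.ext he h'
  have hb : ∀ e : Bool, Function.Bijective ((pr e : V × V →ₗ[F] V).domRestrict S) := by
    intro e
    constructor
    · rw [← LinearMap.ker_eq_bot, LinearMap.ker_eq_bot']
      intro p hp
      exact Subtype.ext (hzero p.1 p.2 e hp)
    · intro v
      have : v ∈ side e S := by cases e; exact h2 v; exact h1 v
      obtain ⟨p, hp, rfl⟩ := this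
      exact ⟨⟨p, hp⟩, rfl⟩
  refine ⟨(LinearEquiv.ofBijective _ (hb true)).symm.trans (LinearEquiv.ofBijective _ (hb false)),
    ?_⟩
  intro x y hxy
  have : (LinearEquiv.ofBijective _ (hb true)).symm x = ⟨(x, y), hxy⟩ := by
    rw [LinearEquiv.symm_apply_eq]
    rfl
  rw [LinearEquiv.trans_apply, this]
  rfl

end Pool.Agent.H14.GLCH
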