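import Pool.Agent.H14.GLCH.Ext

set_option autoImplicit false

open Cardinal Submodule

namespace Pool.Agent.H14.GLCH

universe u

variable {F : Type u} [Field F] {V : Type u} [AddCommGroup V] [Module F V]

/-- multiplication by a scalar -/
def IsScalar (a : V ≃ₗ[F] V) : Prop := ∃ c : F, ∀ v, a v = c • v

/-- scalar, or far from all scalars -/
def Star (κ : Cardinal.{u}) (a : V ≃ₗ[F] V) : Prop := IsScalar a ∨ NS κ a

theorem CoLarge.map_equiv {κ : Cardinal.{u}} {A : Submodule F V} (k : V ≃ₗ[F] V)
    (h : CoLarge κ (A.map k.toLinearMap)) : CoLarge κ A := by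
  unfold CoLarge at h ⊢
  rwa [← (Submodule.Quotient.equiv A (A.map k.toLinearMap) k rfl).rank_eq] at h

theorem IsScalar.conj {a : V ≃ₗ[F] V} (h : IsScalar a) (k : V ≃ₗ[F] V) :
    IsScalar (k * a * k⁻¹) := by
  obtain ⟨c, hc⟩ := h
  refine ⟨c, fun v => ?_⟩
  rw [LinearEquiv.mul_apply, LinearEquiv.mul_apply, hc, map_smul]
  congr 1
  exact LinearEquiv.apply_symm_apply k v

theorem NS.conj {κ : Cardinal.{u}} {a : V ≃ₗ[F] V} (h : NS κ a) (k : V ≃ₗ[F] V) :
    NS κ (k * a * k⁻¹) := by
  intro c hc
  apply h c
  apply CoLarge.map_equiv k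
  refine hc.mono ?_
  rintro _ ⟨_, ⟨v, rfl⟩, rfl⟩
  refine ⟨k v, ?_⟩
  have : k⁻¹ (k v) = v := LinearEquiv.symm_apply_apply k v
  simp only [LinearMap.sub_apply, LinearEquiv.coe_coe, LinearEquiv.mul_apply, this,
    LinearMap.smul_apply, LinearMap.id_apply, map_sub, map_smul]

theorem Star.conj {κ : Cardinal.{u}} {a : V ≃ₗ[F] V} (h : Star κ a) (k : V ≃ₗ[F] V) :
    Star κ (k * a * k⁻¹) := by
  rcases h with h | h
  · exact Or.inl (h.conj k)
  · exact Or.inr (h.conj k)

theorem Star.of_conj {κ : Cardinal.{u}} {a : V ≃ₗ[F] V} (k : V ≃ₗ[F] V)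
    (h : Star κ (k * a * k⁻¹)) : Star κ a := by
  have := h.conj k⁻¹
  have e : k⁻¹ * (k * a * k⁻¹) * k⁻¹⁻¹ = a := by group
  rwa [e] at this

theorem evg_append (h : V ≃ₗ[F] V) (m₁ m₂ : List (Letter F V)) :
    evg h (m₁ ++ m₂) = evg h m₂ * evg h m₁ := by
  induction m₁ with
  | nil => simp [evg]
  | cons x m ih => simp only [List.cons_append, evg, ih]; group

theorem hp_not_mul (h : V ≃ₗ[F] V) (e : Bool) : hp h (!e) * hp h e = 1 := by
  cases e
  · simp [hp]
  · simp [hp]

theorem IsScalar.comm {a : V ≃ₗ[F] V} (ha : IsScalar a) (b : V ≃ₗ[F] V) : a * b = b * a := by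
  obtain ⟨c, hc⟩ := ha
  ext v
  rw [LinearEquiv.mul_apply, LinearEquiv.mul_apply, hc, hc, map_smul]

theorem cancel_pair (h : V ≃ₗ[F] V) (x y : Letter F V) (m : List (Letter F V))
    (hxy : y.1 = !x.1) (hs : IsScalar y.2) :
    evg h (x :: y :: m) = evg h m * (y.2 * x.2) := by
  have h1 : hp h y.1 * hp h x.1 = 1 := by rw [hxy]; exact hp_not_mul h x.1
  simp only [evg]
  calc evg h m * hp h y.1 * y.2 * hp h x.1 * x.2
      = evg h m * hp h y.1 * (y.2 * hp h x.1) * x.2 := by group
    _ = evg h m * hp h y.1 * (hp h x.1 * y.2) * x.2 := by rw [hs.comm]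
    _ = evg h m * (hp h y.1 * hp h x.1) * y.2 * x.2 := by group
    _ = evg h m * (y.2 * x.2) := by rw [h1]; group

theorem exists_bad_of_not_chain {α : Type u} (R : α → α → Prop) :
    ∀ m : List α, ¬ List.IsChain R m → ∃ l₁ x y l₂, m = l₁ ++ x :: y :: l₂ ∧ ¬ R x y
  | [], h => absurd (by simp) h
  | [x], h => absurd (by simp) h
  | x :: y :: m, h => by
      rw [List.isChain_cons_cons] at h
      by_cases hxy : R x y
      · have h' : ¬ List.IsChain R (y :: m) := fun hc => h ⟨hxy, hc⟩
        obtain ⟨l₁, a, b, l₂, he, hab⟩ := exists_bad_of_not_chain R (y :: m) h'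
        exact ⟨x :: l₁, a, b, l₂, by rw [he]; rfl, hab⟩
      · exact ⟨[], x, y, m, rfl, hxy⟩

/-- words over `Γ` evaluate to elements satisfying `Star` -/
theorem star_evg {κ : Cardinal.{u}} (hκ : ℵ₀ ≤ κ) (Γ : Subgroup (V ≃ₗ[F] V))
    (hΓ : ∀ g ∈ Γ, Star κ g) (h : V ≃ₗ[F] V)
    (hh : ∀ (x : Letter F V) (m : List (Letter F V)), (∀ y ∈ x :: m, y.2 ∈ Γ) →
      Good κ (x :: m) → ∀ c : F, c ≠ 0 → ∀ z : V, ∃ v : V, evg h (x :: m) v = c • v + z) :
    ∀ (n : ℕ) (m : List (Letter F V)), m.length ≤ n → (∀ y ∈ m, y.2 ∈ Γ) → m ≠ [] →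
      Star κ (evg h m) := by
  intro n
  induction n with
  | zero =>
    intro m hm _ hne
    exact absurd (List.length_eq_zero_iff.mp (Nat.le_zero.mp hm)) hne
  | succ n ih =>
    intro m hlen hmem hne
    -- reduction step for a cancelling pair at the head
    have hred : ∀ (x y : Letter F V) (l : List (Letter F V)), (x :: y :: l).length ≤ n + 1 →
        (∀ w ∈ x :: y :: l, w.2 ∈ Γ) → ¬ Adj κ x y → Star κ (evg h (x :: y :: l)) := by
      intro x y l hl hw hxy
      unfold Adj at hxy
      push Not at hxy
      obtain ⟨h1, h2⟩ := hxy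
      have hy : IsScalar y.2 := by
        rcases hΓ y.2 (hw y (by simp)) with h3 | h3
        · exact h3
        · exact absurd h3 h2
      rw [cancel_pair h x y l h1 hy]
      have hyx : y.2 * x.2 ∈ Γ := Γ.mul_mem (hw y (by simp)) (hw x (by simp))
      cases l with
      | nil =>
        simp only [evg, one_mul]
        exact hΓ _ hyx
      | cons w l =>
        have he : evg h (w :: l) * (y.2 * x.2) = evg h ((w.1, w.2 * (y.2 * x.2)) :: l) := by
          simp only [evg]; group
        rw [he]
        apply ih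
        · simp only [List.length_cons] at hl ⊢
          omega
        · intro a ha
          rw [List.mem_cons] at ha
          rcases ha with rfl | ha
          · exact Γ.mul_mem (hw w (by simp)) hyx
          · exact hw a (by simp [ha])
        · simp
    have hrot : ∀ (m₁ m₂ : List (Letter F V)), Star κ (evg h (m₂ ++ m₁)) →
        Star κ (evg h (m₁ ++ m₂)) := by
      intro m₁ m₂ hs
      rw [evg_append] at hs ⊢
      apply Star.of_conj (evg h m₁)
      have : evg h m₁ * (evg h m₂ * evg h m₁) * (evg h m₁)⁻¹ = evg h m₁ * evg h m₂ := by group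
      rw [this]
      exact hs
    by_cases hgood : Good κ m
    · cases m with
      | nil => exact absurd rfl hne
      | cons x m =>
        right
        intro c hc
        have htop : LinearMap.range ((evg h (x :: m)).toLinearMap - c • LinearMap.id) = ⊤ := by
          rw [LinearMap.range_eq_top]
          intro z
          by_cases hc0 : c = 0
          · subst hc0
            refine ⟨(evg h (x :: m)).symm z, ?_⟩
            simp
          · obtain ⟨v, hv⟩ := hh x m hmem hgood c hc0 z
            refine ⟨v, ?_⟩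
            simp only [LinearMap.sub_apply, LinearEquiv.coe_coe, LinearMap.smul_apply,
              LinearMap.id_apply, hv, add_sub_cancel_left]
        rw [htop] at hc
        obtain ⟨v, hv⟩ := hc.exists_notMem hκ
        exact hv Submodule.mem_top
    · unfold Good at hgood
      rw [not_and_or] at hgood
      rcases hgood with hg | hg
      · obtain ⟨l₁, x, y, l₂, rfl, hxy⟩ := exists_bad_of_not_chain (Adj κ) m hg
        apply hrot
        rw [List.cons_append, List.cons_append]
        apply hred x y (l₂ ++ l₁)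
        · simp only [List.length_cons, List.length_append] at hlen ⊢
          omega
        · intro w hw
          apply hmem w
          simp only [List.mem_cons, List.mem_append] at hw ⊢
          tauto
        · exact hxy
      · push Not at hg
        obtain ⟨x, y, hx, hy, hxy⟩ := hg
        cases m with
        | nil => exact absurd rfl hne
        | cons a m =>
          simp only [List.head?_cons, Option.mem_def, Option.some.injEq] at hy
          subst hy
          rcases List.eq_nil_or_concat m with rfl | ⟨m', b, rfl⟩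
          · simp only [List.getLast?_singleton, Option.mem_def, Option.some.injEq] at hx
            subst hx
            exfalso
            apply hxy
            intro h1
            revert h1
            cases a.1 <;> simp
          · have hbx : b = x := by
              rw [Option.mem_def, List.getLast?_cons, List.concat_eq_append] at hx
              simpa using hx
            subst hbx
            rw [List.concat_eq_append] at hlen hmem ⊢
            have e : a :: (m' ++ [b]) = (a :: m') ++ [b] := rfl
            rw [e]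
            apply hrot
            rw [List.singleton_append]
            apply hred b a m'
            · simp only [List.length_cons, List.length_append] at hlen ⊢
              simpa using hlen
            · intro w hw
              apply hmem w
              simp only [List.mem_cons, List.mem_append] at hw ⊢
              tauto
            · exact hxy

theorem star_closure {κ : Cardinal.{u}} (hκ : ℵ₀ ≤ κ) (Γ : Subgroup (V ≃ₗ[F] V))
    (hΓ : ∀ g ∈ Γ, Star κ g) (h : V ≃ₗ[F] V)
    (hh : ∀ (x : Letter F V) (m : List (Letter F V)), (∀ y ∈ x :: m, y.2 ∈ Γ) →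
      Good κ (x :: m) → ∀ c : F, c ≠ 0 → ∀ z : V, ∃ v : V, evg h (x :: m) v = c • v + z) :
    ∀ g ∈ Γ ⊔ Subgroup.closure {h}, Star κ g := by
  have hform : ∀ g ∈ Subgroup.closure ((Γ : Set (V ≃ₗ[F] V)) ∪ {h}), ∃ b ∈ Γ,
      ∃ m : List (Letter F V), (∀ y ∈ m, y.2 ∈ Γ) ∧ g = b * evg h m := by
    intro g hg
    have hΓmul : ∀ (b : V ≃ₗ[F] V) (m : List (Letter F V)) (γ : V ≃ₗ[F] V), b ∈ Γ → γ ∈ Γ →
        (∀ y ∈ m, y.2 ∈ Γ) → ∃ b' ∈ Γ, ∃ m' : List (Letter F V), (∀ y ∈ m', y.2 ∈ Γ) ∧
          b * evg h m * γ = b' * evg h m' := by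
      intro b m γ hb hγ hm
      cases m with
      | nil => exact ⟨b * γ, Γ.mul_mem hb hγ, [], by simp, by simp [evg]⟩
      | cons x m =>
        refine ⟨b, hb, (x.1, x.2 * γ) :: m, ?_, ?_⟩
        · intro y hy
          rw [List.mem_cons] at hy
          rcases hy with rfl | hy
          · exact Γ.mul_mem (hm x (by simp)) hγ
          · exact hm y (by simp [hy])
        · simp only [evg]; group
    have hhmul : ∀ (b : V ≃ₗ[F] V) (m : List (Letter F V)) (e : Bool), b ∈ Γ →
        (∀ y ∈ m, y.2 ∈ Γ) → ∃ b' ∈ Γ, ∃ m' : List (Letter F V), (∀ y ∈ m', y.2 ∈ Γ) ∧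
          b * evg h m * hp h e = b' * evg h m' := by
      intro b m e hb hm
      refine ⟨b, hb, (e, 1) :: m, ?_, ?_⟩
      · intro y hy
        rw [List.mem_cons] at hy
        rcases hy with rfl | hy
        · exact Γ.one_mem
        · exact hm y hy
      · simp only [evg, mul_one]; group
    induction hg using Subgroup.closure_induction_right with
    | one => exact ⟨1, Γ.one_mem, [], by simp, by simp [evg]⟩
    | mul_right x hx y hy ih =>
      obtain ⟨b, hb, m, hm, rfl⟩ := ih
      rcases hy with hy | hy
      · exact hΓmul b m y hb hy hm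
      · rw [Set.mem_singleton_iff] at hy
        subst hy
        exact hhmul b m true hb hm
    | mul_inv_cancel x hx y hy ih =>
      obtain ⟨b, hb, m, hm, rfl⟩ := ih
      rcases hy with hy | hy
      · exact hΓmul b m y⁻¹ hb (Γ.inv_mem hy) hm
      · rw [Set.mem_singleton_iff] at hy
        subst hy
        exact hhmul b m false hb hm
  intro g hg
  have hg' : g ∈ Subgroup.closure ((Γ : Set (V ≃ₗ[F] V)) ∪ {h}) := by
    rw [Subgroup.closure_union, Subgroup.closure_eq]
    exact hg
  obtain ⟨b, hb, m, hm, rfl⟩ := hform g hg'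
  cases m with
  | nil => simpa [evg] using hΓ b hb
  | cons x m =>
    apply Star.of_conj b⁻¹
    have : b⁻¹ * (b * evg h (x :: m)) * b⁻¹⁻¹ = evg h ((x.1, x.2 * b) :: m) := by
      simp only [evg]; group
    rw [this]
    refine star_evg hκ Γ hΓ h hh _ _ le_rfl ?_ (by simp)
    intro y hy
    rw [List.mem_cons] at hy
    rcases hy with rfl | hy
    · exact Γ.mul_mem (hm x (by simp)) hb
    · exact hm y (by simp [hy])

end Pool.Agent.H14.GLCH
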